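import Mathlib

/-!
# Uniqueness of asymptotic expansions in real powers along a sequence
-/

open Filter Topology

namespace Pool.Agent.TH116.AE

/-- The value at `r` of the finite sum of `b α r ^ α`. -/
noncomputable def ev (r : ℕ) : (ℝ →₀ ℂ) →ₗ[ℂ] ℂ :=
  Finsupp.linearCombination ℂ fun α : ℝ => (((r : ℝ) ^ α : ℝ) : ℂ)

lemma ev_single (r : ℕ) (α : ℝ) (z : ℂ) :
    ev r (Finsupp.single α z) = z * (((r : ℝ) ^ α : ℝ) : ℂ) := by
  simp [ev, Finsupp.linearCombination_single]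

lemma ev_eq (r : ℕ) (b : ℝ →₀ ℂ) :
    ev r b = ∑ α ∈ b.support, b α * (((r : ℝ) ^ α : ℝ) : ℂ) := by
  rw [ev, Finsupp.linearCombination_apply, Finsupp.sum]
  rfl

/-- If the sum is `O(r ^ A)` along a sequence tending to infinity, then the coefficients of the powers
larger than `A` are zero. -/
theorem coeff_eq_zero (b : ℝ →₀ ℂ) (A : ℝ) (r : ℕ → ℕ) (hr : Tendsto r atTop atTop) (C : ℝ)
    (h : ∀ᶠ t in atTop, ‖ev (r t) b‖ ≤ C * ((r t : ℕ) : ℝ) ^ A) (α₁ : ℝ) (hα₁ : A < α₁) :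
    b α₁ = 0 := by
  by_contra hb1
  have hne : b.support.Nonempty := ⟨α₁, Finsupp.mem_support_iff.2 hb1⟩
  obtain ⟨α₀, hmem, hmax⟩ : ∃ α₀ ∈ b.support, ∀ α ∈ b.support, α ≤ α₀ :=
    ⟨b.support.max' hne, Finset.max'_mem _ _, fun α hα => Finset.le_max' _ _ hα⟩
  have hA : A < α₀ := lt_of_lt_of_le hα₁ (hmax _ (Finsupp.mem_support_iff.2 hb1))
  have hR : Tendsto (fun t => ((r t : ℕ) : ℝ)) atTop atTop :=
    tendsto_natCast_atTop_atTop.comp hr
  have hlim : Tendsto (fun t => ∑ α ∈ b.support,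
      b α * ((((r t : ℕ) : ℝ) ^ (α - α₀) : ℝ) : ℂ)) atTop
      (𝓝 (∑ α ∈ b.support, if α = α₀ then b α else 0)) := by
    refine tendsto_finset_sum _ fun α hα => ?_
    split_ifs with h1
    · subst h1
      simp
    · have h2 : α < α₀ := lt_of_le_of_ne (hmax α hα) h1
      have h3 : Tendsto (fun x : ℝ => x ^ (α - α₀)) atTop (𝓝 0) := by
        have h4 := tendsto_rpow_neg_atTop (y := α₀ - α) (by linarith)
        simpa using h4
      have h5 : Tendsto (fun t => ((((r t : ℕ) : ℝ) ^ (α - α₀) : ℝ) : ℂ)) atTop (𝓝 ((0 : ℝ) : ℂ)) :=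
        (Complex.continuous_ofReal.tendsto 0).comp (h3.comp hR)
      simpa using h5.const_mul (b α)
  rw [Finset.sum_ite_eq' b.support α₀ (fun α => b α), if_pos hmem] at hlim
  have hzero : Tendsto (fun t => |C| * ((r t : ℕ) : ℝ) ^ (A - α₀)) atTop (𝓝 0) := by
    have h4 := tendsto_rpow_neg_atTop (y := α₀ - A) (by linarith)
    have h5 : Tendsto (fun t => ((r t : ℕ) : ℝ) ^ (A - α₀)) atTop (𝓝 0) := by
      have h6 := h4.comp hR
      simpa [Function.comp_def] using h6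
    simpa using h5.const_mul |C|
  have hle : ‖b α₀‖ ≤ 0 := by
    refine le_of_tendsto_of_tendsto hlim.norm hzero ?_
    filter_upwards [h, hR.eventually_gt_atTop 0] with t ht htpos
    have h7 : ev (r t) b = ((((r t : ℕ) : ℝ) ^ α₀ : ℝ) : ℂ) * ∑ α ∈ b.support,
        b α * ((((r t : ℕ) : ℝ) ^ (α - α₀) : ℝ) : ℂ) := by
      rw [ev_eq, Finset.mul_sum]
      refine Finset.sum_congr rfl fun α _ => ?_
      have h8 : ((r t : ℕ) : ℝ) ^ α = ((r t : ℕ) : ℝ) ^ α₀ * ((r t : ℕ) : ℝ) ^ (α - α₀) := by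
        rw [← Real.rpow_add htpos]
        congr 1
        ring
      rw [h8]
      push_cast
      ring
    rw [h7, norm_mul, Complex.norm_real, Real.norm_of_nonneg (Real.rpow_nonneg htpos.le _)] at ht
    have hpos : 0 < ((r t : ℕ) : ℝ) ^ α₀ := Real.rpow_pos_of_pos htpos _
    have h9 : ((r t : ℕ) : ℝ) ^ A = ((r t : ℕ) : ℝ) ^ α₀ * ((r t : ℕ) : ℝ) ^ (A - α₀) := by
      rw [← Real.rpow_add htpos]
      congr 1
      ring
    rw [h9] at ht
    have h10 : 0 ≤ ((r t : ℕ) : ℝ) ^ (A - α₀) := Real.rpow_nonneg htpos.le _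
    have h11 : ((r t : ℕ) : ℝ) ^ α₀ * ‖∑ α ∈ b.support,
        b α * ((((r t : ℕ) : ℝ) ^ (α - α₀) : ℝ) : ℂ)‖ ≤
        ((r t : ℕ) : ℝ) ^ α₀ * (|C| * ((r t : ℕ) : ℝ) ^ (A - α₀)) := by
      refine ht.trans ?_
      have h12 : C * (((r t : ℕ) : ℝ) ^ α₀ * ((r t : ℕ) : ℝ) ^ (A - α₀)) =
        ((r t : ℕ) : ℝ) ^ α₀ * (C * ((r t : ℕ) : ℝ) ^ (A - α₀)) := by ring
      rw [h12]
      exact mul_le_mul_of_nonneg_left (mul_le_mul_of_nonneg_right (le_abs_self C) h10) hpos.le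
    exact le_of_mul_le_mul_left h11 hpos
  exact (Finsupp.mem_support_iff.1 hmem) (norm_le_zero_iff.1 hle)

/-- The Taylor expansion of `exp (x / r)`. -/
theorem exp_taylor (x : ℂ) (L : ℕ) (hL : 0 < L) :
    ∃ C : ℝ, ∀ᶠ r : ℕ in atTop,
      ‖Complex.exp (x / r) - ∑ l ∈ Finset.range L, x ^ l / (l.factorial : ℂ) / (r : ℂ) ^ l‖ ≤
        C * ((r : ℝ) ^ L)⁻¹ := by
  refine ⟨‖x‖ ^ L * ((L.succ : ℝ) * ((L.factorial : ℝ) * (L : ℝ))⁻¹), ?_⟩
  filter_upwards [eventually_ge_atTop (Nat.ceil ‖x‖ + 1)] with r hr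
  have hr0 : (0 : ℝ) < r := by
    have : 0 < r := by omega
    exact_mod_cast this
  have h1 : ‖x / r‖ ≤ 1 := by
    rw [norm_div, Complex.norm_natCast, div_le_one hr0]
    calc ‖x‖ ≤ (Nat.ceil ‖x‖ : ℝ) := Nat.le_ceil _
      _ ≤ r := by exact_mod_cast (by omega : Nat.ceil ‖x‖ ≤ r)
  have h2 := Complex.exp_bound h1 hL
  have h3 : ∑ l ∈ Finset.range L, x ^ l / (l.factorial : ℂ) / (r : ℂ) ^ l =
      ∑ l ∈ Finset.range L, (x / r) ^ l / (l.factorial : ℂ) := by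
    refine Finset.sum_congr rfl fun l _ => ?_
    rw [div_pow, div_right_comm]
  rw [h3]
  refine h2.trans (le_of_eq ?_)
  rw [norm_div, Complex.norm_natCast, div_pow]
  field_simp

end Pool.Agent.TH116.AE
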