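import Pool.Agent.TH116.AE.Basic

/-!
# The SU(2) invariants of the lens space L(25,2)
-/

open Filter Topology Finset

namespace Pool.Agent.TH116.AE

/-- `exp (2 π i x)`. -/
noncomputable def e (x : ℝ) : ℂ := Complex.exp (2 * Real.pi * Complex.I * x)

lemma e_add (x y : ℝ) : e (x + y) = e x * e y := by
  rw [e, e, e, ← Complex.exp_add]
  congr 1
  push_cast
  ring

lemma e_int (k : ℤ) : e (k : ℝ) = 1 := by
  rw [e, Complex.exp_eq_one_iff]
  refine ⟨k, ?_⟩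
  push_cast
  ring

lemma e_eq_one {x : ℝ} (h : e x = 1) : ∃ k : ℤ, x = k := by
  rw [e, Complex.exp_eq_one_iff] at h
  obtain ⟨n, hn⟩ := h
  refine ⟨n, ?_⟩
  have h1 : (2 * Real.pi * Complex.I : ℂ) ≠ 0 := Complex.two_pi_I_ne_zero
  have h2 : (2 * Real.pi * Complex.I : ℂ) * (x : ℂ) = (2 * Real.pi * Complex.I : ℂ) * (n : ℂ) := by
    rw [hn]; ring
  have h3 := mul_left_cancel₀ h1 h2
  exact_mod_cast h3

lemma e_nat_mul (s : ℕ) (x : ℝ) : e (s * x) = e x ^ s := by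
  rw [e, e, ← Complex.exp_nat_mul]
  congr 1
  push_cast
  ring

lemma sum_e {N : ℕ} {x : ℝ} (hx : ∃ k : ℤ, N * x = k) (hx' : ¬ ∃ k : ℤ, x = k) :
    ∑ s ∈ range N, e (s * x) = 0 := by
  have h1 : e x ≠ 1 := fun h => hx' (e_eq_one h)
  simp only [e_nat_mul]
  rw [geom_sum_eq h1]
  obtain ⟨k, hk⟩ := hx
  rw [← e_nat_mul, hk, e_int, sub_self, zero_div]

/-- The Gauss sum for the residue class `s` of `r` modulo `25`. -/
noncomputable def G (a : ℕ) (s : ℕ) : ℂ :=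
  ∑ n ∈ range 25, e (2 * s * n ^ 2 / 25) * e (a * n / 25)

lemma sum_G (a : ℕ) (ha : ¬ 5 ∣ a) : ∑ s ∈ range 25, G a s = 0 := by
  have h1 : ∀ n : ℕ, ∑ s ∈ range 25, e (2 * s * n ^ 2 / 25) = if 5 ∣ n then 25 else 0 := by
    intro n
    split_ifs with h
    · obtain ⟨m, rfl⟩ := h
      have : ∀ s ∈ range 25, e (2 * (s : ℝ) * ((5 * m : ℕ) : ℝ) ^ 2 / 25) = 1 := by
        intro s _
        have h2 : 2 * (s : ℝ) * ((5 * m : ℕ) : ℝ) ^ 2 / 25 = ((2 * s * m ^ 2 : ℤ) : ℝ) := by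
          push_cast
          ring
        rw [h2, e_int]
      rw [sum_congr rfl this]
      simp
    · have h3 : ∀ s ∈ range 25, e (2 * (s : ℝ) * (n : ℝ) ^ 2 / 25) = e (s * (2 * n ^ 2 / 25)) := by
        intro s _
        congr 1
        ring
      rw [sum_congr rfl h3]
      refine sum_e ⟨2 * n ^ 2, by push_cast; ring⟩ ?_
      rintro ⟨k, hk⟩
      have h4 : (2 * n ^ 2 : ℤ) = 25 * k := by
        have : (2 : ℝ) * n ^ 2 = 25 * k := by
          rw [← hk]; ring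
        exact_mod_cast this
      have h5 : (5 : ℤ) ∣ 2 * n ^ 2 := ⟨5 * k, by rw [h4]; ring⟩
      have h6 : (5 : ℤ) ∣ (n : ℤ) ^ 2 :=
        (Int.Prime.dvd_mul' (by norm_num) h5).resolve_left (by norm_num)
      have h7 : (5 : ℤ) ∣ n := Int.Prime.dvd_pow' (by norm_num) h6
      exact h (by exact_mod_cast h7)
  have h8 : ∑ s ∈ range 25, G a s =
      ∑ n ∈ range 25, (if 5 ∣ n then 25 else 0) * e (a * n / 25) := by
    simp only [G]
    rw [sum_comm]
    refine sum_congr rfl fun n _ => ?_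
    rw [← sum_mul, h1]
  rw [h8]
  have h9 : ∀ n ∈ range 25, (if 5 ∣ n then (25 : ℂ) else 0) * e (a * n / 25) =
      if 5 ∣ n then 25 * e (a * n / 25) else 0 := by
    intro n _
    split_ifs <;> simp
  rw [sum_congr rfl h9, ← sum_filter]
  have himg : (range 25).filter (fun n => 5 ∣ n) = (range 5).image (fun j => 5 * j) := by decide
  rw [himg, sum_image (by intro x _ y _ h; simpa using h)]
  have h10 : ∀ j ∈ range 5, (25 : ℂ) * e (a * ((5 * j : ℕ) : ℝ) / 25) = 25 * e (j * (a / 5)) := by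
    intro j _
    congr 2
    push_cast
    ring
  rw [sum_congr rfl h10, ← mul_sum]
  rw [sum_e (N := 5) ⟨a, by push_cast; ring⟩, mul_zero]
  rintro ⟨k, hk⟩
  refine ha ?_
  have h11 : (a : ℤ) = 5 * k := by
    have : (a : ℝ) = 5 * k := by rw [← hk]; ring
    exact_mod_cast this
  have h12 : (5 : ℤ) ∣ a := ⟨k, h11⟩
  exact_mod_cast h12

/-- The formula for the invariant of `L(25,2)`, up to a constant `κ` and a factor `exp (i θ / r)`. -/
noncomputable def Z (κ : ℂ) (θ : ℝ) (r : ℕ) : ℂ :=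
  κ * Complex.exp (Complex.I * θ / r) * (((r : ℝ) ^ (-1 / 2 : ℝ) : ℝ) : ℂ) *
    ∑ n ∈ range 25, e (2 * r * n ^ 2 / 25) *
      (e (3 * n / 25) * Complex.exp (Complex.I * Real.pi / (25 * r)) -
        e (n / 25) * Complex.exp (-(Complex.I * Real.pi / (25 * r))))

lemma Z_eq (κ : ℂ) (θ : ℝ) (t s : ℕ) : Z κ θ (25 * t + s) =
    κ * ((((25 * t + s : ℕ) : ℝ) ^ (-1 / 2 : ℝ) : ℝ) : ℂ) *
      (G 3 s * Complex.exp (Complex.I * (θ + Real.pi / 25) / ((25 * t + s : ℕ) : ℂ)) -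
        G 1 s * Complex.exp (Complex.I * (θ - Real.pi / 25) / ((25 * t + s : ℕ) : ℂ))) := by
  have h1 : ∀ n : ℕ, e (2 * ((25 * t + s : ℕ) : ℝ) * n ^ 2 / 25) = e (2 * s * n ^ 2 / 25) := by
    intro n
    have h2 : 2 * ((25 * t + s : ℕ) : ℝ) * n ^ 2 / 25 =
        ((2 * t * n ^ 2 : ℤ) : ℝ) + 2 * s * n ^ 2 / 25 := by
      push_cast
      ring
    rw [h2, e_add, e_int, one_mul]
  have h3 : Complex.exp (Complex.I * (θ + Real.pi / 25) / ((25 * t + s : ℕ) : ℂ)) =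
      Complex.exp (Complex.I * θ / ((25 * t + s : ℕ) : ℂ)) *
        Complex.exp (Complex.I * Real.pi / (25 * ((25 * t + s : ℕ) : ℂ))) := by
    rw [← Complex.exp_add]
    congr 1
    ring
  have h4 : Complex.exp (Complex.I * (θ - Real.pi / 25) / ((25 * t + s : ℕ) : ℂ)) =
      Complex.exp (Complex.I * θ / ((25 * t + s : ℕ) : ℂ)) *
        Complex.exp (-(Complex.I * Real.pi / (25 * ((25 * t + s : ℕ) : ℂ)))) := by
    rw [← Complex.exp_add]
    congr 1
    ring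
  rw [Z, h3, h4, G, G]
  simp only [h1]
  rw [sum_mul, sum_mul, ← sum_sub_distrib]
  simp only [mul_sum]
  refine sum_congr rfl fun n _ => ?_
  have h5 : e (((1 : ℕ) : ℝ) * n / 25) = e (n / 25) := by
    congr 1
    push_cast
    ring
  have h6 : e (((3 : ℕ) : ℝ) * n / 25) = e (3 * n / 25) := by
    congr 1
  rw [h5, h6]
  ring

end Pool.Agent.TH116.AE
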