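import Pool.Agent.TH116.AE.Lens

/-!
# The invariants of L(25,2) have no expansion with a nonzero term for the phase 0
-/

open Filter Topology Finset

namespace Pool.Agent.TH116.AE

/-- The sum `S_E(r)` of the problem: `Σ_j v_j exp(2πi(r c_j + I_j/8)) r^{d_j} (1 + Σ_{l=1}^{E} a_{j,l} r^{-l})`. -/
noncomputable def S {m : ℕ} (c d I v : Fin (m + 1) → ℝ) (a : Fin (m + 1) → ℕ → ℂ) (E r : ℕ) : ℂ :=
  ∑ j, (v j : ℂ) * e (r * c j + I j / 8) * (((r : ℝ) ^ d j : ℝ) : ℂ) *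
    (1 + ∑ l ∈ range E, a j (l + 1) / (r : ℂ) ^ (l + 1))

/-- The coefficients of `Z` for `r ≡ s` modulo `25`. -/
noncomputable def w (κ : ℂ) (θ : ℝ) (s l : ℕ) : ℂ :=
  κ * (G 3 s * ((Complex.I * (θ + Real.pi / 25)) ^ l / (l.factorial : ℂ)) -
    G 1 s * ((Complex.I * (θ - Real.pi / 25)) ^ l / (l.factorial : ℂ)))

/-- The expansion of `Z` as a finite sum of powers. -/
noncomputable def WB (κ : ℂ) (θ : ℝ) (L s : ℕ) : ℝ →₀ ℂ :=
  ∑ l ∈ range L, Finsupp.single (-1 / 2 - l : ℝ) (w κ θ s l)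

/-- The coefficients `1, a_1, a_2, ...`. -/
noncomputable def a' (a : ℕ → ℂ) : ℕ → ℂ
  | 0 => 1
  | l + 1 => a (l + 1)

/-- The sum `S_E` for `r ≡ s` modulo `25` as a finite sum of powers. -/
noncomputable def SB {m : ℕ} (c d I v : Fin (m + 1) → ℝ) (a : Fin (m + 1) → ℕ → ℂ) (E s : ℕ) :
    ℝ →₀ ℂ :=
  ∑ j, ∑ l ∈ range (E + 1), Finsupp.single (d j - l : ℝ)
    (e (s * c j) * ((v j : ℂ) * e (I j / 8) * a' (a j) l))

lemma rpow_sub_nat' {r : ℕ} (hr : 0 < r) (α : ℝ) (l : ℕ) :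
    (((r : ℝ) ^ (α - l) : ℝ) : ℂ) = (((r : ℝ) ^ α : ℝ) : ℂ) / (r : ℂ) ^ l := by
  have h : (0 : ℝ) < r := by exact_mod_cast hr
  rw [Real.rpow_sub h, Real.rpow_natCast]
  push_cast
  rfl

lemma ev_WB (κ : ℂ) (θ : ℝ) (L s r : ℕ) (hr : 0 < r) :
    ev r (WB κ θ L s) = κ * (((r : ℝ) ^ (-1 / 2 : ℝ) : ℝ) : ℂ) *
      (G 3 s * ∑ l ∈ range L, (Complex.I * (θ + Real.pi / 25)) ^ l / (l.factorial : ℂ) / (r : ℂ) ^ l -
        G 1 s * ∑ l ∈ range L, (Complex.I * (θ - Real.pi / 25)) ^ l / (l.factorial : ℂ) /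
          (r : ℂ) ^ l) := by
  rw [WB, map_sum]
  simp only [ev_single, rpow_sub_nat' hr]
  rw [mul_sum, mul_sum, ← sum_sub_distrib, mul_sum]
  refine sum_congr rfl fun l _ => ?_
  rw [w]
  ring

lemma ev_SB {m : ℕ} (c d I v : Fin (m + 1) → ℝ) (a : Fin (m + 1) → ℕ → ℂ) (E t s : ℕ)
    (hc : ∀ j, ∃ k : ℤ, 25 * c j = k) (hr : 0 < 25 * t + s) :
    ev (25 * t + s) (SB c d I v a E s) = S c d I v a E (25 * t + s) := by
  rw [SB, S, map_sum]
  refine sum_congr rfl fun j _ => ?_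
  rw [map_sum]
  simp only [ev_single, rpow_sub_nat' hr]
  have h1 : e (((25 * t + s : ℕ) : ℝ) * c j + I j / 8) = e (s * c j) * e (I j / 8) := by
    obtain ⟨k, hk⟩ := hc j
    have h2 : ((25 * t + s : ℕ) : ℝ) * c j + I j / 8 = ((t * k : ℤ) : ℝ) + (s * c j + I j / 8) := by
      push_cast
      rw [← hk]
      ring
    rw [h2, e_add, e_int, one_mul, e_add]
  rw [h1, sum_range_succ']
  have h3 : ∀ l ∈ range E, a' (a j) (l + 1) = a j (l + 1) := fun l _ => rfl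
  simp only [a', Nat.cast_zero, pow_zero, div_one]
  rw [mul_add, mul_sum, add_comm]
  congr 1
  · push_cast
    ring
  · refine sum_congr rfl fun l _ => ?_
    push_cast
    ring

lemma sum_w (κ : ℂ) (θ : ℝ) (l : ℕ) : ∑ s ∈ range 25, w κ θ s l = 0 := by
  simp only [w]
  rw [← mul_sum, sum_sub_distrib, ← sum_mul, ← sum_mul, sum_G 3 (by decide), sum_G 1 (by decide)]
  simp

/-- The main theorem. -/
theorem no_expansion (κ : ℂ) (θ : ℝ) {m : ℕ} (c d I v : Fin (m + 1) → ℝ)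
    (a : Fin (m + 1) → ℕ → ℂ) (hc0 : c 0 = 0) (hc : ∀ j, ∃ k : ℤ, 25 * c j = k)
    (hc' : ∀ j, j ≠ 0 → ¬ ∃ k : ℤ, c j = k) (hv : v 0 ≠ 0) (D : ℝ)
    (H : ∀ E : ℕ, ∃ C : ℝ, ∀ r : ℕ, 2 ≤ r →
      ‖Z κ θ r - S c d I v a E r‖ ≤ C * (r : ℝ) ^ (D - E - 1)) : False := by
  obtain ⟨E, hE⟩ := exists_nat_gt (D - d 0 - 1)
  set A : ℝ := D - E - 1 with hAdef
  have hA : A < d 0 := by rw [hAdef]; linarith
  obtain ⟨L0, hL0⟩ := exists_nat_gt (-A)
  set L := L0 + 1 with hL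
  have hLA : (-1 / 2 : ℝ) - L ≤ A := by rw [hL]; push_cast; linarith
  obtain ⟨C, hC⟩ := H E
  obtain ⟨C₁, hC₁⟩ := exp_taylor (Complex.I * (θ + Real.pi / 25)) L (by omega)
  obtain ⟨C₂, hC₂⟩ := exp_taylor (Complex.I * (θ - Real.pi / 25)) L (by omega)
  -- the coefficients of `r ^ d 0`
  have key : ∀ s : ℕ, (WB κ θ L s) (d 0) = (SB c d I v a E s) (d 0) := by
    intro s
    have hr : Tendsto (fun t : ℕ => 25 * t + s) atTop atTop :=
      tendsto_atTop_mono (fun t => by simp only [id]; omega) tendsto_id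
    have h := coeff_eq_zero (WB κ θ L s - SB c d I v a E s) A (fun t => 25 * t + s) hr
      (|C| + ‖κ‖ * (‖G 3 s‖ * |C₁| + ‖G 1 s‖ * |C₂|)) ?_ (d 0) hA
    · rw [Finsupp.sub_apply] at h
      exact sub_eq_zero.1 h
    · filter_upwards [hr.eventually hC₁, hr.eventually hC₂, eventually_ge_atTop 2] with t h1 h2 ht
      have hr2 : 2 ≤ 25 * t + s := by omega
      have hr0 : 0 < 25 * t + s := by omega
      have hr0' : (0 : ℝ) < ((25 * t + s : ℕ) : ℝ) := by exact_mod_cast hr0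
      have hr1' : (1 : ℝ) ≤ ((25 * t + s : ℕ) : ℝ) := by exact_mod_cast hr0
      rw [map_sub, ev_SB c d I v a E t s hc hr0]
      have h3 := hC (25 * t + s) hr2
      have h4 : ev (25 * t + s) (WB κ θ L s) - S c d I v a E (25 * t + s) =
          (Z κ θ (25 * t + s) - S c d I v a E (25 * t + s)) -
            (Z κ θ (25 * t + s) - ev (25 * t + s) (WB κ θ L s)) := by ring
      rw [h4]
      have h5 : ‖Z κ θ (25 * t + s) - ev (25 * t + s) (WB κ θ L s)‖ ≤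
          ‖κ‖ * (‖G 3 s‖ * |C₁| + ‖G 1 s‖ * |C₂|) * ((25 * t + s : ℕ) : ℝ) ^ A := by
        rw [ev_WB κ θ L s _ hr0, Z_eq]
        set x₁ := Complex.exp (Complex.I * (θ + Real.pi / 25) / ((25 * t + s : ℕ) : ℂ)) with hx₁
        set x₂ := Complex.exp (Complex.I * (θ - Real.pi / 25) / ((25 * t + s : ℕ) : ℂ)) with hx₂
        set y₁ := ∑ l ∈ range L, (Complex.I * (θ + Real.pi / 25)) ^ l / (l.factorial : ℂ) /
          ((25 * t + s : ℕ) : ℂ) ^ l with hy₁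
        set y₂ := ∑ l ∈ range L, (Complex.I * (θ - Real.pi / 25)) ^ l / (l.factorial : ℂ) /
          ((25 * t + s : ℕ) : ℂ) ^ l with hy₂
        set q := ((25 * t + s : ℕ) : ℝ) with hq
        have h6 : κ * ((q ^ (-1 / 2 : ℝ) : ℝ) : ℂ) * (G 3 s * x₁ - G 1 s * x₂) -
            κ * ((q ^ (-1 / 2 : ℝ) : ℝ) : ℂ) * (G 3 s * y₁ - G 1 s * y₂) =
            κ * ((q ^ (-1 / 2 : ℝ) : ℝ) : ℂ) * (G 3 s * (x₁ - y₁) - G 1 s * (x₂ - y₂)) := by ring
        rw [h6, norm_mul, norm_mul, Complex.norm_real,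
          Real.norm_of_nonneg (Real.rpow_nonneg hr0'.le _)]
        have h7 : ‖G 3 s * (x₁ - y₁) - G 1 s * (x₂ - y₂)‖ ≤
            (‖G 3 s‖ * |C₁| + ‖G 1 s‖ * |C₂|) * (q ^ L)⁻¹ := by
          have hq' : 0 ≤ (q ^ L)⁻¹ := by positivity
          have h8 : ‖x₁ - y₁‖ ≤ |C₁| * (q ^ L)⁻¹ :=
            h1.trans (mul_le_mul_of_nonneg_right (le_abs_self _) hq')
          have h9 : ‖x₂ - y₂‖ ≤ |C₂| * (q ^ L)⁻¹ :=
            h2.trans (mul_le_mul_of_nonneg_right (le_abs_self _) hq')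
          calc ‖G 3 s * (x₁ - y₁) - G 1 s * (x₂ - y₂)‖
              ≤ ‖G 3 s * (x₁ - y₁)‖ + ‖G 1 s * (x₂ - y₂)‖ := norm_sub_le _ _
            _ = ‖G 3 s‖ * ‖x₁ - y₁‖ + ‖G 1 s‖ * ‖x₂ - y₂‖ := by rw [norm_mul, norm_mul]
            _ ≤ ‖G 3 s‖ * (|C₁| * (q ^ L)⁻¹) + ‖G 1 s‖ * (|C₂| * (q ^ L)⁻¹) := by gcongr
            _ = (‖G 3 s‖ * |C₁| + ‖G 1 s‖ * |C₂|) * (q ^ L)⁻¹ := by ring
        have h10 : q ^ (-1 / 2 : ℝ) * (q ^ L)⁻¹ ≤ q ^ A := by
          rw [← Real.rpow_natCast q L, ← Real.rpow_neg hr0'.le, ← Real.rpow_add hr0']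
          exact Real.rpow_le_rpow_of_exponent_le hr1' (by linarith)
        have h11 : 0 ≤ q ^ (-1 / 2 : ℝ) := Real.rpow_nonneg hr0'.le _
        calc ‖κ‖ * q ^ (-1 / 2 : ℝ) * ‖G 3 s * (x₁ - y₁) - G 1 s * (x₂ - y₂)‖
            ≤ ‖κ‖ * q ^ (-1 / 2 : ℝ) * ((‖G 3 s‖ * |C₁| + ‖G 1 s‖ * |C₂|) * (q ^ L)⁻¹) :=
              mul_le_mul_of_nonneg_left h7 (mul_nonneg (norm_nonneg _) h11)
          _ = ‖κ‖ * (‖G 3 s‖ * |C₁| + ‖G 1 s‖ * |C₂|) * (q ^ (-1 / 2 : ℝ) * (q ^ L)⁻¹) := by ring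
          _ ≤ ‖κ‖ * (‖G 3 s‖ * |C₁| + ‖G 1 s‖ * |C₂|) * q ^ A :=
              mul_le_mul_of_nonneg_left h10 (by positivity)
      refine (norm_sub_le _ _).trans ?_
      have h12 : 0 ≤ ((25 * t + s : ℕ) : ℝ) ^ A := Real.rpow_nonneg hr0'.le _
      have h13 : ‖Z κ θ (25 * t + s) - S c d I v a E (25 * t + s)‖ ≤
          |C| * ((25 * t + s : ℕ) : ℝ) ^ A :=
        h3.trans (mul_le_mul_of_nonneg_right (le_abs_self _) h12)
      calc _ ≤ |C| * ((25 * t + s : ℕ) : ℝ) ^ A +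
            ‖κ‖ * (‖G 3 s‖ * |C₁| + ‖G 1 s‖ * |C₂|) * ((25 * t + s : ℕ) : ℝ) ^ A :=
            add_le_add h13 h5
        _ = _ := by ring
  -- sum over the residue classes
  have hW : ∑ s ∈ range 25, (WB κ θ L s) (d 0) = 0 := by
    simp only [WB, Finsupp.finset_sum_apply, Finsupp.single_apply]
    rw [sum_comm]
    refine sum_eq_zero fun l _ => ?_
    split_ifs with h
    · exact sum_w κ θ l
    · simp
  have hS : ∑ s ∈ range 25, (SB c d I v a E s) (d 0) = 25 * ((v 0 : ℂ) * e (I 0 / 8)) := by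
    simp only [SB, Finsupp.finset_sum_apply, Finsupp.single_apply]
    rw [sum_comm]
    rw [sum_eq_single 0]
    · rw [sum_comm, sum_eq_single 0]
      · simp only [hc0, mul_zero, Nat.cast_zero, sub_zero, if_true, a', mul_one]
        have : e 0 = 1 := by simpa using e_int 0
        rw [this]
        simp
      · intro l _ hl
        refine sum_eq_zero fun s _ => ?_
        rw [if_neg]
        intro h
        have : (l : ℝ) = 0 := by linarith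
        exact hl (by exact_mod_cast this)
      · intro h
        exact absurd (mem_range.2 (Nat.succ_pos E)) h
    · intro j _ hj
      rw [sum_comm]
      refine sum_eq_zero fun l _ => ?_
      split_ifs with h
      · rw [← sum_mul, sum_e (N := 25) (by
          obtain ⟨k, hk⟩ := hc j
          exact ⟨k, by push_cast; exact hk⟩) (hc' j hj), zero_mul]
      · simp
    · intro h
      exact absurd (mem_univ _) h
  have h14 : (25 : ℂ) * ((v 0 : ℂ) * e (I 0 / 8)) = 0 := by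
    rw [← hS, ← hW]
    exact sum_congr rfl fun s _ => (key s).symm
  have h15 : e (I 0 / 8) ≠ 0 := Complex.exp_ne_zero _
  have h16 : (v 0 : ℂ) ≠ 0 := by exact_mod_cast hv
  exact absurd h14 (mul_ne_zero (by norm_num) (mul_ne_zero h16 h15))

end Pool.Agent.TH116.AE
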